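import Pool.Agent.W207.PF.SpecA

/-!
# PF-LOC: local mass of Montgomery's function, analytic part
-/

set_option autoImplicit false

open Filter Topology Set MeasureTheory
open scoped BigOperators

namespace Pool.Agent.W753.PF

open W207.PR (ct dt G)
open W207.PF

/-- the transform of a translated tent is bounded by the transform of the tent -/
lemma ct_shift (hTN : S_TN) {h : ℝ} (hh : 0 < h) (a0 x : ℝ) :
    |ct (fun a => tn h (a - a0)) x| ≤ ct (tn h) x := by
  obtain ⟨hcont, h01, hint, -, -, -, -, hct, -, -⟩ := hTN h hh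
  have hi : Integrable (tn h) := by
    by_contra hcon
    rw [integral_undef hcon] at hint
    exact hh.ne hint
  have hic : Integrable (fun a => tn h a * Real.cos (2 * Real.pi * a * x)) := by
    refine hi.mul_bdd (c := 1) ?_ ?_
    · exact (by fun_prop : Continuous fun a : ℝ => Real.cos (2 * Real.pi * a * x)).aestronglyMeasurable
    · exact Eventually.of_forall fun a => by
        rw [Real.norm_eq_abs]; exact Real.abs_cos_le_one _
  have his : Integrable (fun a => tn h a * Real.sin (2 * Real.pi * a * x)) := by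
    refine hi.mul_bdd (c := 1) ?_ ?_
    · exact (by fun_prop : Continuous fun a : ℝ => Real.sin (2 * Real.pi * a * x)).aestronglyMeasurable
    · exact Eventually.of_forall fun a => by
        rw [Real.norm_eq_abs]; exact Real.abs_sin_le_one _
  have hodd : ∫ a, tn h a * Real.sin (2 * Real.pi * a * x) = 0 := by
    have h1 := integral_neg_eq_self (fun a => tn h a * Real.sin (2 * Real.pi * a * x)) volume
    have h2 : ∫ a, tn h (-a) * Real.sin (2 * Real.pi * (-a) * x) =
        -∫ a, tn h a * Real.sin (2 * Real.pi * a * x) := by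
      rw [← integral_neg]
      congr 1
      funext a
      have e1 : tn h (-a) = tn h a := by unfold tn; rw [abs_neg]
      have e2 : 2 * Real.pi * (-a) * x = -(2 * Real.pi * a * x) := by ring
      rw [e1, e2, Real.sin_neg]
      ring
    rw [h2] at h1
    linarith
  have hmain : ct (fun a => tn h (a - a0)) x = Real.cos (2 * Real.pi * a0 * x) * ct (tn h) x := by
    unfold ct
    have h1 : ∫ a, tn h (a - a0) * Real.cos (2 * Real.pi * a * x) =
        ∫ a, tn h a * Real.cos (2 * Real.pi * (a + a0) * x) := by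
      have := integral_add_right_eq_self (μ := volume)
        (fun a => tn h (a - a0) * Real.cos (2 * Real.pi * a * x)) a0
      rw [← this]
      congr 1
      funext a
      rw [add_sub_cancel_right]
    rw [h1]
    have h2 : ∀ a, tn h a * Real.cos (2 * Real.pi * (a + a0) * x) =
        Real.cos (2 * Real.pi * a0 * x) * (tn h a * Real.cos (2 * Real.pi * a * x)) -
          Real.sin (2 * Real.pi * a0 * x) * (tn h a * Real.sin (2 * Real.pi * a * x)) := by
      intro a
      have e : 2 * Real.pi * (a + a0) * x = 2 * Real.pi * a * x + 2 * Real.pi * a0 * x := by ring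
      rw [e, Real.cos_add]
      ring
    simp only [h2]
    rw [integral_sub (hic.const_mul _) (his.const_mul _), integral_const_mul, integral_const_mul,
      hodd, mul_zero, sub_zero]
  rw [hmain, abs_mul, abs_of_nonneg (hct x).1]
  calc |Real.cos (2 * Real.pi * a0 * x)| * ct (tn h) x ≤ 1 * ct (tn h) x :=
        mul_le_mul_of_nonneg_right (Real.abs_cos_le_one _) (hct x).1
    _ = ct (tn h) x := one_mul _

/-- decay of the kernel -/
lemma kernel_le (hTN : S_TN) (hSN : S_SN) {h : ℝ} (hh : 0 < h) (a0 x : ℝ) :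
    |sn h x * ct (fun a => tn h (a - a0)) x| * (1 + |x|) ^ 3 ≤
      (h + 1) * (2 * (h + 1 / (Real.pi ^ 2 * h))) := by
  obtain ⟨-, -, -, -, -, -, -, hct, -, -⟩ := hTN h hh
  obtain ⟨-, -, -, -, -, -, hsn, -⟩ := hSN h hh
  obtain ⟨hct0, hct1, hct2⟩ := hct x
  have hpi : 0 < Real.pi := Real.pi_pos
  have h1 := ct_shift hTN hh a0 x
  have h2 := hsn x
  have h3 : ct (tn h) x * x ^ 2 ≤ 1 / (Real.pi ^ 2 * h) := by
    rw [le_div_iff₀ (by positivity)]
    calc ct (tn h) x * x ^ 2 * (Real.pi ^ 2 * h) = ct (tn h) x * (Real.pi ^ 2 * h * x ^ 2) := by ring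
      _ ≤ 1 := hct2
  have h4 : ct (tn h) x * (1 + |x|) ^ 2 ≤ 2 * (h + 1 / (Real.pi ^ 2 * h)) := by
    have h5 : (1 + |x|) ^ 2 ≤ 2 * (1 + x ^ 2) := by
      have := sq_abs x
      nlinarith [sq_nonneg (1 - |x|)]
    calc ct (tn h) x * (1 + |x|) ^ 2 ≤ ct (tn h) x * (2 * (1 + x ^ 2)) :=
          mul_le_mul_of_nonneg_left h5 hct0
      _ = 2 * (ct (tn h) x + ct (tn h) x * x ^ 2) := by ring
      _ ≤ _ := by linarith
  have hx : 0 ≤ 1 + |x| := by positivity
  calc |sn h x * ct (fun a => tn h (a - a0)) x| * (1 + |x|) ^ 3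
      = (|sn h x| * (1 + |x|)) * (|ct (fun a => tn h (a - a0)) x| * (1 + |x|) ^ 2) := by
        rw [abs_mul]; ring
    _ ≤ (h + 1) * (ct (tn h) x * (1 + |x|) ^ 2) := by
        refine mul_le_mul h2 (mul_le_mul_of_nonneg_right h1 (by positivity)) (by positivity)
          (by positivity)
    _ ≤ _ := mul_le_mul_of_nonneg_left h4 (by positivity)

/-- the window mean is at most an average over nearby windows -/
lemma window_le (hTN : S_TN) {h : ℝ} (hh : 0 < h) (F : ℝ → ℝ) (hF : Continuous F)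
    (hF0 : ∀ a, 0 ≤ F a) (a0 : ℝ)
    (hI : Integrable (fun a => tn h (a - a0) * ∫ α in (a - h / 2)..(a + h / 2), F α)) :
    h / 4 * ∫ α in (a0 - h / 2)..(a0 + h / 2), F α ≤
      ∫ a, tn h (a - a0) * ∫ α in (a - h / 2)..(a + h / 2), F α := by
  obtain ⟨hcont, h01, -, -, -, -, -, -, -, -⟩ := hTN h hh
  have hii : ∀ a b : ℝ, IntervalIntegrable F volume a b := fun a b => hF.intervalIntegrable a b
  have hw0 : ∀ a, 0 ≤ ∫ α in (a - h / 2)..(a + h / 2), F α := fun a =>
    intervalIntegral.integral_nonneg (by linarith) fun u _ => hF0 u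
  set g : ℝ → ℝ := fun a => tn h (a - a0) * ∫ α in (a - h / 2)..(a + h / 2), F α with hg
  have hg0 : ∀ a, 0 ≤ g a := fun a => mul_nonneg (h01 _).1 (hw0 a)
  have hgi : ∀ a b : ℝ, IntervalIntegrable g volume a b := fun a b => hI.intervalIntegrable
  have htn : ∀ a, |a - a0| ≤ h / 2 → 1 / 2 ≤ tn h (a - a0) := by
    intro a ha
    unfold tn
    refine le_max_of_le_left ?_
    have : |a - a0| / h ≤ 1 / 2 := by
      rw [div_le_iff₀ hh]; linarith
    linarith
  -- left half
  have hL : ∀ a ∈ Icc (a0 - h / 2) a0, 1 / 2 * ∫ α in (a0 - h / 2)..a0, F α ≤ g a := by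
    intro a ha
    have h1 : ∫ α in (a0 - h / 2)..a0, F α ≤ ∫ α in (a - h / 2)..(a + h / 2), F α :=
      intervalIntegral.integral_mono_interval (by linarith [ha.2]) (by linarith)
        (by linarith [ha.1]) (Eventually.of_forall fun u => hF0 u) (hii _ _)
    have h2 : 0 ≤ ∫ α in (a0 - h / 2)..a0, F α :=
      intervalIntegral.integral_nonneg (by linarith) fun u _ => hF0 u
    exact mul_le_mul (htn a (by rw [abs_le]; constructor <;> linarith [ha.1, ha.2])) h1 h2
      (h01 _).1
  have hR : ∀ a ∈ Icc a0 (a0 + h / 2), 1 / 2 * ∫ α in a0..(a0 + h / 2), F α ≤ g a := by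
    intro a ha
    have h1 : ∫ α in a0..(a0 + h / 2), F α ≤ ∫ α in (a - h / 2)..(a + h / 2), F α :=
      intervalIntegral.integral_mono_interval (by linarith [ha.2]) (by linarith)
        (by linarith [ha.1]) (Eventually.of_forall fun u => hF0 u) (hii _ _)
    have h2 : 0 ≤ ∫ α in a0..(a0 + h / 2), F α :=
      intervalIntegral.integral_nonneg (by linarith) fun u _ => hF0 u
    exact mul_le_mul (htn a (by rw [abs_le]; constructor <;> linarith [ha.1, ha.2])) h1 h2
      (h01 _).1
  have e1 : ∫ a in (a0 - h / 2)..a0, (1 / 2 * ∫ α in (a0 - h / 2)..a0, F α) ≤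
      ∫ a in (a0 - h / 2)..a0, g a :=
    intervalIntegral.integral_mono_on (by linarith) (by simp) (hgi _ _) hL
  have e2 : ∫ a in a0..(a0 + h / 2), (1 / 2 * ∫ α in a0..(a0 + h / 2), F α) ≤
      ∫ a in a0..(a0 + h / 2), g a :=
    intervalIntegral.integral_mono_on (by linarith) (by simp) (hgi _ _) hR
  rw [intervalIntegral.integral_const, smul_eq_mul] at e1 e2
  have e3 : ∫ a in (a0 - h / 2)..(a0 + h / 2), g a =
      (∫ a in (a0 - h / 2)..a0, g a) + ∫ a in a0..(a0 + h / 2), g a :=
    (intervalIntegral.integral_add_adjacent_intervals (hgi _ _) (hgi _ _)).symm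
  have e4 : ∫ α in (a0 - h / 2)..(a0 + h / 2), F α =
      (∫ α in (a0 - h / 2)..a0, F α) + ∫ α in a0..(a0 + h / 2), F α :=
    (intervalIntegral.integral_add_adjacent_intervals (hii _ _) (hii _ _)).symm
  have e5 : ∫ a in (a0 - h / 2)..(a0 + h / 2), g a ≤ ∫ a, g a := by
    rw [intervalIntegral.integral_of_le (by linarith)]
    exact setIntegral_le_integral hI (Eventually.of_forall hg0)
  refine le_trans ?_ e5
  rw [e3, e4]
  have e6 : (a0 - (a0 - h / 2)) = h / 2 := by ring
  have e7 : (a0 + h / 2 - a0) = h / 2 := by ring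
  rw [e6] at e1
  rw [e7] at e2
  linarith

/-- the bound -/
theorem loc_core (hTN : S_TN) (hSN : S_SN) {h : ℝ} (hh : 0 < h) (F : ℝ → ℝ) (hF : Continuous F)
    (hF0 : ∀ a, 0 ≤ F a) (LTf : (ℝ → ℝ) → ℝ)
    (hwin : ∀ κ : ℝ → ℝ, Integrable κ →
      Integrable (fun a => κ a * ∫ α in (a - h / 2)..(a + h / 2), F α) ∧
      ∫ a, κ a * ∫ α in (a - h / 2)..(a + h / 2), F α = LTf (fun x => sn h x * ct κ x))
    (C : ℝ) (hmass : ∀ (φ : ℝ → ℝ) (K : ℝ), (∀ x, |φ x| * (1 + |x|) ^ 3 ≤ K) →
      |LTf φ| ≤ C * K) (a0 : ℝ) :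
    ∫ α in (a0 - h / 2)..(a0 + h / 2), F α ≤
      4 / h * (C * ((h + 1) * (2 * (h + 1 / (Real.pi ^ 2 * h))))) := by
  obtain ⟨hcont, h01, hint, -, -, -, -, -, -, -⟩ := hTN h hh
  have hi : Integrable (tn h) := by
    by_contra hcon
    rw [integral_undef hcon] at hint
    exact hh.ne hint
  have hi' : Integrable (fun a => tn h (a - a0)) := hi.comp_sub_right a0
  obtain ⟨h1, h2⟩ := hwin (fun a => tn h (a - a0)) hi'
  have h3 := window_le hTN hh F hF hF0 a0 h1
  rw [h2] at h3
  have h4 := hmass (fun x => sn h x * ct (fun a => tn h (a - a0)) x) _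
    (fun x => kernel_le hTN hSN hh a0 x)
  have h5 := (h3.trans (le_abs_self _)).trans h4
  rw [div_mul_eq_mul_div, le_div_iff₀ hh]
  linarith

end Pool.Agent.W753.PF
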