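import Pool.Agent.W207.PF.SpecB
import Pool.Agent.W753.PF.LocA

/-!
# PF-LOC: local mass of Montgomery's function
-/

set_option autoImplicit false

open Filter Topology Set MeasureTheory

namespace Pool.Agent.W753.PF

open W207.PR (ct dt G)
open W207.PU (UBU Neu)
open W207.PF

theorem main : S_LOC := by
  intro hU hMASS hPOS hWIN hTN hSN h hh
  obtain ⟨C, T0, hC, hT0, hm⟩ := hMASS hU
  have hpi : 0 < Real.pi := Real.pi_pos
  refine ⟨4 / h * (C * ((h + 1) * (2 * (h + 1 / (Real.pi ^ 2 * h))))), T0, by positivity, hT0, ?_⟩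
  intro T hT a
  have hT10 : 10 ≤ T := hT0.trans hT
  obtain ⟨hF, -, hF0⟩ := hPOS T hT10
  obtain ⟨-, hw⟩ := hWIN T hT10
  obtain ⟨-, hw2⟩ := hw h hh
  exact loc_core hTN hSN hh (FF T) hF hF0 (LT T) hw2 C (fun φ K hφ => hm T hT φ K hφ) a

end Pool.Agent.W753.PF
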